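import Pool.Agent.ASO.Stmts5
import Pool.Agent.ASO.StmtsL
import Pool.Agent.ASO.StmtsH2

/-!
# ASO row KCM: two systems with congruent numbers `U` have the same number of characters modulo `ℓ ^ 2`
-/

open scoped BigOperators

noncomputable section

namespace Pool.Agent.PP.SO.H13

open Pool.Agent.Helper51_AWC Pool.Agent.Helper79_WRA Pool.Agent.PP Pool.Agent.PP.KF
open Pool.Agent.PP.K9 Pool.Agent.PP.K9.H97 Pool.Agent.PP.H75 Pool.Agent.PP.T3
open Pool.Agent.PP.SO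

attribute [local instance] Ideal.Quotient.field

section rat

variable {M : Ideal (integralClosure ℤ ℂ)} [M.IsMaximal]

/-- a rational number in the local ring has a denominator prime to `ℓ` -/
theorem kcm_rat {ℓ : ℕ} [hℓ : Fact ℓ.Prime] (hM : (ℓ : integralClosure ℤ ℂ) ∈ M) {q : ℚ}
    (h : (q : ℂ) ∈ RM M) : q ∈ SOR.Rl ℓ := by
  intro hd
  have e1 : (q.num : ℂ) = (q : ℂ) * ((q.den : ℤ) : ℂ) := by
    have h1 : (q : ℚ) * q.den = q.num := Rat.mul_den_eq_num q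
    have h2 := congrArg (fun r : ℚ => (r : ℂ)) h1
    push_cast at h2 ⊢
    exact h2.symm
  have e2 : rr M ((q.den : ℤ) : ℂ) = 0 := by
    rw [dvd_of_rr hℓ.out hM]
    exact_mod_cast hd
  have e3 : rr M (q.num : ℂ) = 0 := by
    rw [e1, rr_mul h (rr_int _).1, e2, mul_zero]
  rw [dvd_of_rr hℓ.out hM] at e3
  have h3 : ℓ ∣ q.num.natAbs := Int.natCast_dvd.1 e3
  have h4 := Nat.Coprime.eq_one_of_dvd
    (Nat.Coprime.coprime_dvd_left h3 q.reduced) hd
  exact hℓ.out.one_lt.ne' h4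

/-- a rational number with denominator prime to `ℓ` is in the local ring -/
theorem kcm_mem {ℓ : ℕ} [hℓ : Fact ℓ.Prime] (hM : (ℓ : integralClosure ℤ ℂ) ∈ M) {q : ℚ}
    (h : q ∈ SOR.Rl ℓ) : (q : ℂ) ∈ RM M := by
  have hd : ¬ ℓ ∣ q.den := h
  have e : (q : ℂ) = (q.num : ℂ) * ((q.den : ℂ))⁻¹ := by
    rw [← div_eq_mul_inv]
    exact_mod_cast congrArg (fun r : ℚ => (r : ℂ)) (Rat.num_div_den q).symm
  rw [e]
  exact (RM M).mul_mem (rr_int _).1 (inv_nat_RM hℓ.out hM hd)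

end rat

/-- casts of sums over finite sets -/
theorem kcm_cast {X : Type} (S : Set X) (hS : S.Finite) (f : X → ℚ) :
    (((∑ᶠ x ∈ S, f x : ℚ)) : ℂ) = ∑ᶠ x ∈ S, ((f x : ℚ) : ℂ) :=
  AddMonoidHom.map_finsum_mem f (Rat.castHom ℂ).toAddMonoidHom hS

/-- KCM -/
theorem kcm (Cpg : CpgStmt) (HCo : HCoStmt) (Kar : KarStmt) : KcmStmt := by
  classical
  intro ℓ _ M _ hM h5 V₀ _ _ E₀ hFr n
  obtain ⟨K, hK⟩ := Cpg ℓ M hM (by omega) V₀ E₀ hFr n
  refine ⟨K, ?_⟩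
  intro G G' _ _ _ _ B B' m m' hB hB' hp hp' hU
  obtain ⟨hA, hBB⟩ := hK G G' B B' m m' hB hB' hp hp' hU
  obtain ⟨-, -, -, hl1, hl2, hj1, -, he, -, -, hs, hsf⟩ := HCo ℓ M hM V₀ E₀ hFr G B hB.toSb
  obtain ⟨-, -, -, hl1', hl2', hj1', -, he', -, -, hs', hsf'⟩ :=
    HCo ℓ M hM V₀ E₀ hFr G' B' hB'.toSb
  have hℓ0 : (ℓ : ℚ) ≠ 0 := by
    have := (Fact.out : ℓ.Prime).pos
    positivity
  choose a ha ea using hl1
  choose b hb eb using hl2
  choose a' ha' ea' using hl1'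
  choose b' hb' eb' using hl2'
  refine Kar ℓ h5 V₀ E₀ hFr (fun c => a c - a' c) (fun c d => b c d - b' c d) _ ?_
  have hcast : ∀ x y : ℚ, (x : ℂ) = (y : ℂ) → x = y := fun x y h => by exact_mod_cast h
  refine ⟨fun c => sub_mem (ha c) (ha' c), fun c d => sub_mem (hb c d) (hb' c d), ?_, ?_, ?_, ?_,
    ?_, ?_⟩
  · intro c j hj
    have h1 := hj1 c j hj
    have h2 := hj1' c j hj
    rw [ea, ea] at h1
    rw [ea', ea'] at h2
    rw [hcast _ _ h1, hcast _ _ h2]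
  · intro σ hσ c
    have h1 := (he c c σ hσ 1 (one_mem _)).1
    have h2 := (he' c c σ hσ 1 (one_mem _)).1
    rw [ea, ea] at h1
    rw [ea', ea'] at h2
    rw [hcast _ _ h1, hcast _ _ h2]
  · intro c d hc hd
    have h1 := hA c d hc hd
    rw [eb, eb'] at h1
    refine ⟨(b c d - b' c d) / ℓ, kcm_rat hM ?_, by field_simp⟩
    push_cast
    exact h1
  · intro hD ρ₁ ρ₂ h1 h2 c d hc hd
    have h3 := hBB (fun c hc => by
      obtain ⟨q, hq, e⟩ := hD c hc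
      rw [ea, ea']
      have e2 : ((a c : ℂ) - (a' c : ℂ)) / ℓ = (q : ℂ) := by
        have e3 : (a c - a' c) / ℓ = q := by
          rw [e]
          field_simp
        exact_mod_cast congrArg (fun r : ℚ => (r : ℂ)) e3
      rw [e2]
      exact kcm_mem hM hq) ρ₁ ρ₂ h1 h2 c d hc hd
    simp only [eb, eb', ea, ea'] at h3
    refine ⟨((b c d - b' c d) * ((ρ₁ c).val * (ρ₂ d).val) -
      ∑ᶠ σ ∈ {σ : MulAut V₀ | σ ∈ E₀ ∧ c * σ d ≠ 1},
        ((ρ₁ (c * σ d)).val : ℚ) * (ρ₂ (σ⁻¹ (c * σ d))).val *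
          (a (c * σ d) - a' (c * σ d))) / ℓ ^ 2, kcm_rat hM ?_, by field_simp⟩
    have e4 := kcm_cast {σ : MulAut V₀ | σ ∈ E₀ ∧ c * σ d ≠ 1} (Set.toFinite _)
      (fun σ => ((ρ₁ (c * σ d)).val : ℚ) * (ρ₂ (σ⁻¹ (c * σ d))).val *
          (a (c * σ d) - a' (c * σ d)))
    rw [Rat.cast_div, Rat.cast_sub, e4]
    push_cast
    exact h3
  · intro c d hc hd
    obtain ⟨-, q, hq, e⟩ := hsf c d hc hd
    obtain ⟨-, q', hq', e'⟩ := hsf' c d hc hd
    simp only [ea, eb] at e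
    simp only [ea', eb'] at e'
    refine ⟨q - q', sub_mem hq hq', ?_⟩
    have e1 : ∑ t ∈ Finset.Icc 1 (ℓ - 1), ∑ s ∈ Finset.Icc 1 (ℓ - 1), b (c ^ t) (d ^ s) +
        (Nat.card E₀ : ℚ) * (ℓ - 1) * (a c + a d) +
        (Nat.card E₀ : ℚ) ^ 2 * (IrrE M B.e).ncard = ℓ ^ 2 * q := by
      apply hcast
      push_cast
      push_cast at e
      exact e
    have e2 : ∑ t ∈ Finset.Icc 1 (ℓ - 1), ∑ s ∈ Finset.Icc 1 (ℓ - 1), b' (c ^ t) (d ^ s) +
        (Nat.card E₀ : ℚ) * (ℓ - 1) * (a' c + a' d) +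
        (Nat.card E₀ : ℚ) ^ 2 * (IrrE M B'.e).ncard = ℓ ^ 2 * q' := by
      apply hcast
      push_cast
      push_cast at e'
      exact e'
    simp only [Finset.sum_sub_distrib]
    push_cast
    linear_combination e1 - e2
  · obtain ⟨q, hq, e⟩ := hs
    obtain ⟨q', hq', e'⟩ := hs'
    simp only [ea] at e
    simp only [ea'] at e'
    refine ⟨q - q', sub_mem hq hq', ?_⟩
    have e1 : (Nat.card E₀ : ℚ) * (IrrE M B.e).ncard + ∑ᶠ c ∈ {c : V₀ | c ≠ 1}, a c =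
        ℓ ^ 2 * q := by
      apply hcast
      rw [Rat.cast_add, kcm_cast _ (Set.toFinite _)]
      push_cast
      push_cast at e
      exact e
    have e2 : (Nat.card E₀ : ℚ) * (IrrE M B'.e).ncard + ∑ᶠ c ∈ {c : V₀ | c ≠ 1}, a' c =
        ℓ ^ 2 * q' := by
      apply hcast
      rw [Rat.cast_add, kcm_cast _ (Set.toFinite _)]
      push_cast
      push_cast at e'
      exact e'
    rw [finsum_mem_sub_distrib _ _ (Set.toFinite _)]
    push_cast
    linear_combination e1 - e2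

end Pool.Agent.PP.SO.H13
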