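import Pool.Agent.Helper13_ASO.PrB

/-!
# Squad ASO, row HFPR: the sum over the `ℓ`-elements

Author: helper13.
-/

open scoped BigOperators

set_option linter.unusedSectionVars false

noncomputable section

namespace Pool.Agent.PP.SO.H13

open Pool.Agent.Helper51_AWC Pool.Agent.Helper79_WRA Pool.Agent.PP Pool.Agent.PP.KF
open Pool.Agent.PP.K9 Pool.Agent.PP.K9.H97 Pool.Agent.PP.H75 Pool.Agent.PP.T3

attribute [local instance] Ideal.Quotient.field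

/-! ## 1. Orbits -/

section orb

variable {V₀ : Type} [CommGroup V₀]

/-- the orbit -/
def Ob (E₀ : Subgroup (MulAut V₀)) (c : V₀) : Set V₀ := {c' | ∃ σ ∈ E₀, σ c = c'}

theorem ob_card [Finite V₀] (E₀ : Subgroup (MulAut V₀)) (c : V₀) :
    (Ob E₀ c).ncard * Nat.card (Es E₀ c) = Nat.card E₀ := by
  have h1 := Subgroup.card_mul_index (MulAction.stabilizer E₀ c)
  rw [MulAction.index_stabilizer] at h1
  have h2 : MulAction.orbit E₀ c = Ob E₀ c := by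
    ext x
    rw [MulAction.mem_orbit_iff]
    constructor
    · rintro ⟨σ, hσ⟩
      exact ⟨σ, σ.2, hσ⟩
    · rintro ⟨σ, hσ, h⟩
      exact ⟨⟨σ, hσ⟩, h⟩
  have h3 : Nat.card (MulAction.stabilizer E₀ c) = Nat.card (Es E₀ c) := by
    refine Nat.card_congr
      { toFun := fun σ => ⟨σ.1.1, σ.1.2, σ.2⟩
        invFun := fun σ => ⟨⟨σ.1, σ.2.1⟩, σ.2.2⟩
        left_inv := fun _ => rfl
        right_inv := fun _ => rfl }
  rw [h2, h3, mul_comm] at h1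
  exact h1

theorem ob_self (E₀ : Subgroup (MulAut V₀)) (c : V₀) : c ∈ Ob E₀ c := ⟨1, E₀.one_mem, rfl⟩

theorem ob_symm {E₀ : Subgroup (MulAut V₀)} {c c' : V₀} (h : c' ∈ Ob E₀ c) : c ∈ Ob E₀ c' := by
  obtain ⟨σ, hσ, h⟩ := h
  refine ⟨σ⁻¹, E₀.inv_mem hσ, ?_⟩
  rw [← h]
  exact σ.symm_apply_apply c

theorem ob_trans {E₀ : Subgroup (MulAut V₀)} {c c' c'' : V₀} (h : c' ∈ Ob E₀ c)
    (h' : c'' ∈ Ob E₀ c') : c'' ∈ Ob E₀ c := by
  obtain ⟨σ, hσ, h⟩ := h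
  obtain ⟨τ, hτ, h'⟩ := h'
  refine ⟨τ * σ, E₀.mul_mem hτ hσ, ?_⟩
  rw [← h', ← h]
  rfl

theorem ob_eq {E₀ : Subgroup (MulAut V₀)} {c c' : V₀} (h : c' ∈ Ob E₀ c) : Ob E₀ c' = Ob E₀ c := by
  ext x
  exact ⟨fun hx => ob_trans h hx, fun hx => ob_trans (ob_symm h) hx⟩

open Classical in
/-- the weighted sum over an orbit -/
theorem ob_sum [Fintype V₀] (E₀ : Subgroup (MulAut V₀)) (n : V₀ → ℕ)
    (hn : ∀ c, n c = (Ob E₀ c).ncard) (c₀ : V₀) :
    ∑ c : V₀, (if c₀ ∈ Ob E₀ c then ((n c : ℕ) : ℂ)⁻¹ else 0) = 1 := by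
  have h1 : ∀ c : V₀, (if c₀ ∈ Ob E₀ c then ((n c : ℕ) : ℂ)⁻¹ else 0) =
      if c ∈ Ob E₀ c₀ then (((Ob E₀ c₀).ncard : ℕ) : ℂ)⁻¹ else 0 := by
    intro c
    by_cases h : c₀ ∈ Ob E₀ c
    · rw [if_pos h, if_pos (ob_symm h), hn, ob_eq h]
    · rw [if_neg h, if_neg fun h' => h (ob_symm h')]
  rw [Finset.sum_congr rfl fun c _ => h1 c, ← Finset.sum_filter, Finset.sum_const, nsmul_eq_mul]
  have h2 : (Finset.univ.filter fun c => c ∈ Ob E₀ c₀).card = (Ob E₀ c₀).ncard := by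
    rw [← Set.ncard_coe_finset]
    congr 1
    ext x
    simp
  rw [h2]
  refine mul_inv_cancel₀ ?_
  have h3 : 0 < (Ob E₀ c₀).ncard := by
    rw [Set.ncard_pos (Set.toFinite _)]
    exact ⟨c₀, ob_self E₀ c₀⟩
  exact_mod_cast h3.ne'

end orb

/-! ## 2. The value of `gv` on conjugate pairs -/

theorem gv_conj {M : Ideal (integralClosure ℤ ℂ)} [M.IsMaximal] {G : Type} [Group G] [Finite G]
    {u : G} {b : G → FF M} (hb : IsCl (fun t : Cu u => b t)) {χ : G → ℂ} (hχ : χ ∈ Irr G) (z : G) :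
    gv M (Cu (z * u * z⁻¹)) (z * u * z⁻¹) (cj z b) χ = gv M (Cu u) u b χ := by
  unfold gv gbv
  rw [← finsum_comp_equiv (H62.cjE (u := z * u * z⁻¹) (u' := u) (x := z) rfl).toEquiv]
  refine finsum_congr fun c => ?_
  have h1 := H62.eh_equiv (M := M) (H62.cjE (u := z * u * z⁻¹) (u' := u) (x := z) rfl) hb c
  have h2 : eh M (fun t : Cu (z * u * z⁻¹) => cj z b t)
      ((H62.cjE (u := z * u * z⁻¹) (u' := u) (x := z) rfl).toEquiv c) =
      eh M (fun t : Cu u => b t) c := h1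
  rw [h2]
  congr 1
  have h3 : (((H62.cjE (u := z * u * z⁻¹) (u' := u) (x := z) rfl).toEquiv c : Cu (z * u * z⁻¹)) : G)
      = z * c * z⁻¹ := rfl
  rw [h3]
  have h4 : z * u * z⁻¹ * (z * (c : G) * z⁻¹) = z * (u * c) * z⁻¹ := by group
  rw [h4, irr_conj hχ]

/-! ## 3. The local pairs -/

section main

variable {ℓ : ℕ} [hfact : Fact ℓ.Prime] {M : Ideal (integralClosure ℤ ℂ)} [M.IsMaximal]
  {V₀ : Type} [CommGroup V₀] [Finite V₀] {E₀ : Subgroup (MulAut V₀)} {G : Type} [Group G]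
  [Finite G] {B : Bk (FF M) V₀ G}

theorem st_one (loc : T3.LocStmt) (hM : (ℓ : integralClosure ℤ ℂ) ∈ M) (hB : Sb ℓ M E₀ B)
    (hLc : ∀ c : V₀, Lc B.e B.i.range B.g (B.i c) (B.b (Subgroup.zpowers c))) {c c₀ : V₀}
    (h : c₀ ∈ Ob E₀ c) : ∃ t : G, t * B.i c * t⁻¹ = B.i c₀ ∧
      cj t (B.b (Subgroup.zpowers c)) = B.b (Subgroup.zpowers c₀) := by
  obtain ⟨σ, hσ, h⟩ := h
  have hF : GoodF ℓ (FF M) := H50.fld ℓ hfact.out M hM
  obtain ⟨t, ht, ht2⟩ := hB.sur σ hσ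
  have h1 := lc_conj hB.ld.blk.1.1 (hLc c) t
  obtain ⟨hn, hs⟩ := Subgroup.mem_inf.1 ht
  have h2 : conjS t B.i.range = B.i.range := mem_normalizer_iff_conjS.1 hn
  have h3 : cj t B.g = B.g := (cj_eq_iff _ _).2 hs
  rw [h2, h3, ht2 c, h] at h1
  refine ⟨t, by rw [ht2 c, h], ?_⟩
  exact (loc ℓ (FF M) hF G B.e B.i.range B.g hB.ld (B.i c₀) ⟨c₀, rfl⟩).2 _ _ h1 (hLc c₀)

theorem st_two (fus : T3.FusStmt) (hM : (ℓ : integralClosure ℤ ℂ) ∈ M) (hB : Sb ℓ M E₀ B)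
    (hLc : ∀ c : V₀, Lc B.e B.i.range B.g (B.i c) (B.b (Subgroup.zpowers c))) {c c₀ : V₀} {y : G}
    (h1 : y * B.i c * y⁻¹ = B.i c₀)
    (h2 : cj y (B.b (Subgroup.zpowers c)) = B.b (Subgroup.zpowers c₀)) : c₀ ∈ Ob E₀ c := by
  obtain ⟨t, ht, h3⟩ := fus ℓ M hM G B.e B.i.range B.g hB.ld (B.i c₀) ⟨c₀, rfl⟩ (B.i c) ⟨c, rfl⟩
    _ _ (hLc c₀) (hLc c) y h1 h2
  obtain ⟨σ, hσ, h4⟩ := hB.act t ht
  refine ⟨σ, hσ, hB.inj ?_⟩
  rw [← h4, h3]

open Classical in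
/-- the number of the conjugations of one pair into the other -/
theorem cnt [Fintype G] (loc : T3.LocStmt) (fus : T3.FusStmt)
    (hM : (ℓ : integralClosure ℤ ℂ) ∈ M) (hB : Sb ℓ M E₀ B)
    (hLc : ∀ c : V₀, Lc B.e B.i.range B.g (B.i c) (B.b (Subgroup.zpowers c))) (c c₀ : V₀) (z₀ : G) :
    ((Finset.univ.filter fun z : G => z * B.i c * z⁻¹ = z₀ * B.i c₀ * z₀⁻¹ ∧
      cj z (B.b (Subgroup.zpowers c)) = cj z₀ (B.b (Subgroup.zpowers c₀))).card : ℂ) =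
      if c₀ ∈ Ob E₀ c then (Nat.card (Cu (B.i c)) : ℂ) else 0 := by
  split_ifs with h
  · obtain ⟨t, ht1, ht2⟩ := st_one loc hM hB hLc h
    have hset : ((Finset.univ.filter fun z : G => z * B.i c * z⁻¹ = z₀ * B.i c₀ * z₀⁻¹ ∧
        cj z (B.b (Subgroup.zpowers c)) = cj z₀ (B.b (Subgroup.zpowers c₀)) : Finset G) : Set G) =
        (fun x => z₀ * t * x) '' (Cu (B.i c) : Set G) := by
      ext z
      rw [Finset.coe_filter, Set.mem_ofPred_eq, Set.mem_image]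
      constructor
      · rintro ⟨-, h1, h2⟩
        refine ⟨(z₀ * t)⁻¹ * z, ?_, by group⟩
        show (z₀ * t)⁻¹ * z ∈ Cu (B.i c)
        rw [Subgroup.mem_centralizer_singleton_iff]
        have h3 : (z₀ * t)⁻¹ * (z * B.i c * z⁻¹) * z = (z₀ * t)⁻¹ * (z₀ * B.i c₀ * z₀⁻¹) * z := by
          rw [h1]
        have e1 : (z₀ * t)⁻¹ * (z * B.i c * z⁻¹) * z = (z₀ * t)⁻¹ * z * B.i c := by group
        have e2 : (z₀ * t)⁻¹ * (z₀ * B.i c₀ * z₀⁻¹) * z =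
            t⁻¹ * B.i c₀ * t * ((z₀ * t)⁻¹ * z) := by group
        have e3 : t⁻¹ * B.i c₀ * t = B.i c := by
          rw [← ht1]
          group
        rw [e1, e2, e3] at h3
        exact h3
      · rintro ⟨x, hx, rfl⟩
        have hx' : x * B.i c = B.i c * x := Subgroup.mem_centralizer_singleton_iff.1 hx
        refine ⟨Finset.mem_univ _, ?_, ?_⟩
        · have e1 : z₀ * t * x * B.i c * (z₀ * t * x)⁻¹ =
              z₀ * (t * (x * B.i c * x⁻¹) * t⁻¹) * z₀⁻¹ := by group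
          have e2 : x * B.i c * x⁻¹ = B.i c := by rw [hx', mul_inv_cancel_right]
          rw [e1, e2, ht1]
        · show cj (z₀ * t * x) (B.b (Subgroup.zpowers c)) = cj z₀ (B.b (Subgroup.zpowers c₀))
          rw [← cj_cj, ← cj_cj, (hLc c).blk.ix.inv hx, ht2]
    rw [← Set.ncard_coe_finset, hset, Set.ncard_image_of_injective _ (mul_right_injective _)]
    rfl
  · have : (Finset.univ.filter fun z : G => z * B.i c * z⁻¹ = z₀ * B.i c₀ * z₀⁻¹ ∧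
        cj z (B.b (Subgroup.zpowers c)) = cj z₀ (B.b (Subgroup.zpowers c₀))) = ∅ := by
      rw [Finset.filter_eq_empty_iff]
      rintro z - ⟨h1, h2⟩
      apply h
      refine st_two fus hM hB hLc (y := z₀⁻¹ * z) ?_ ?_
      · have e1 : z₀⁻¹ * z * B.i c * (z₀⁻¹ * z)⁻¹ = z₀⁻¹ * (z * B.i c * z⁻¹) * z₀ := by group
        rw [e1, h1]
        group
      · rw [← cj_cj, h2, cj_inv_cj]
    rw [this, Finset.card_empty, Nat.cast_zero]

end main

/-- HFPR -/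
theorem hfpr (hlnk : HLnkStmt) (hixe : HIxeStmt) (smg : T3.SmgStmt) (dug : T3.DugStmt)
    (fus : T3.FusStmt) (loc : T3.LocStmt) : HFprStmt := by
  intro ℓ hfact M _ hM V₀ _ _ E₀ G _ _ B hB χ hχ
  classical
  have := Fintype.ofFinite G
  have := Fintype.ofFinite V₀
  have hF : GoodF ℓ (FF M) := H50.fld ℓ hfact.out M hM
  have hL := hB.ld
  have hLc : ∀ c : V₀, Lc B.e B.i.range B.g (B.i c) (B.b (Subgroup.zpowers c)) := fun c =>
    (hlnk ℓ M hM V₀ E₀ G B hB c).2.1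
  have hCu : ∀ c : V₀, Cu (B.i c) = B.C (Subgroup.zpowers c) := fun c =>
    (hlnk ℓ M hM V₀ E₀ G B hB c).1
  have hEl : ∀ c : V₀, El ℓ (B.i c) := by
    intro c
    obtain ⟨n, hn⟩ := hL.tp.pg ⟨B.i c, c, rfl⟩
    exact ⟨n, congrArg Subtype.val hn⟩
  have hχI : χ ∈ Irr G := hχ.1
  have hχ1 : χ 1 ≠ 0 := irr_one_ne hχI
  have hnE : ∀ c, nE E₀ c = (Ob E₀ c).ncard := by
    intro c
    have h1 := ((hixe ℓ M hM V₀ E₀ G B hB).2.2.2 c).2.1
    rw [← ob_card E₀ c] at h1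
    have h2 : 0 < Nat.card (Es E₀ c) := Nat.card_pos
    exact Nat.eq_of_mul_eq_mul_right h2 h1
  -- the map
  obtain ⟨Φ, hΦ⟩ : ∃ Φ : G × V₀ → G × (G → FF M), ∀ q, Φ q =
      (q.1 * B.i q.2 * q.1⁻¹, cj q.1 (B.b (Subgroup.zpowers q.2))) := ⟨_, fun _ => rfl⟩
  obtain ⟨f, hf⟩ : ∃ f : G × (G → FF M) → ℂ, ∀ p, f p = gv M (Cu p.1) p.1 p.2 χ :=
    ⟨_, fun _ => rfl⟩
  obtain ⟨w, hw⟩ : ∃ w : V₀ → ℂ, ∀ c, w c = (Nat.card (Cu (B.i c)) : ℂ)⁻¹ * (nE E₀ c : ℂ)⁻¹ :=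
    ⟨_, fun _ => rfl⟩
  have hΦO : ∀ q, Φ q ∈ Om ℓ B.e := by
    intro q
    rw [hΦ]
    exact om_conj hL.blk.1.1 ⟨hEl q.2, (hLc q.2).blk, (hLc q.2).und⟩ q.1
  have hΦS : ∀ p ∈ Om ℓ B.e, ∃ q, Φ q = p := by
    rintro ⟨y, b⟩ ⟨h1, h2, h3⟩
    obtain ⟨z, ⟨c, hc⟩, hz⟩ := pair_conj dug hM hL h1 h2 h3
    have hc' : B.i c = z⁻¹ * y * z := hc
    rw [← hc'] at hz
    have h4 : cj z⁻¹ b = B.b (Subgroup.zpowers c) :=
      (loc ℓ (FF M) hF G B.e B.i.range B.g hL (B.i c) ⟨c, rfl⟩).2 _ _ hz (hLc c)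
    refine ⟨(z, c), ?_⟩
    rw [hΦ]
    refine Prod.ext ?_ ?_
    · show z * B.i c * z⁻¹ = y
      rw [hc']
      group
    · show cj z (B.b (Subgroup.zpowers c)) = b
      rw [← h4, cj_cj_inv]
  obtain ⟨S, hS⟩ : ∃ S, S = Finset.univ.image Φ := ⟨_, rfl⟩
  have hSO : (S : Set (G × (G → FF M))) = Om ℓ B.e := by
    ext p
    rw [hS, Finset.coe_image, Finset.coe_univ, Set.image_univ, Set.mem_range]
    constructor
    · rintro ⟨q, rfl⟩
      exact hΦO q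
    · intro h
      exact hΦS p h
  -- the fibres
  have hfib : ∀ q₀, ∑ q ∈ Finset.univ.filter (fun q => Φ q = Φ q₀), w q.2 = 1 := by
    rintro ⟨z₀, c₀⟩
    rw [Finset.sum_filter, Fintype.sum_prod_type, Finset.sum_comm, ← ob_sum E₀ _ hnE c₀]
    refine Finset.sum_congr rfl fun c _ => ?_
    have h1 : ∀ z : G, (Φ (z, c) = Φ (z₀, c₀)) ↔ (z * B.i c * z⁻¹ = z₀ * B.i c₀ * z₀⁻¹ ∧
        cj z (B.b (Subgroup.zpowers c)) = cj z₀ (B.b (Subgroup.zpowers c₀))) := by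
      intro z
      rw [hΦ, hΦ]
      exact Prod.mk_inj
    rw [← Finset.sum_filter]
    show ∑ a ∈ Finset.univ.filter (fun a => Φ (a, c) = Φ (z₀, c₀)), w c = _
    rw [Finset.sum_const, nsmul_eq_mul]
    have h2 : (Finset.univ.filter fun z : G => Φ (z, c) = Φ (z₀, c₀)) =
        Finset.univ.filter fun z : G => z * B.i c * z⁻¹ = z₀ * B.i c₀ * z₀⁻¹ ∧
        cj z (B.b (Subgroup.zpowers c)) = cj z₀ (B.b (Subgroup.zpowers c₀)) :=
      Finset.filter_congr fun z _ => h1 z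
    rw [h2, cnt loc fus hM hB hLc c c₀ z₀, hw]
    split_ifs with h
    · have h3 : (Nat.card (Cu (B.i c)) : ℂ) ≠ 0 := by exact_mod_cast Nat.card_pos.ne'
      rw [mul_inv_cancel_left₀ h3]
    · rw [zero_mul]
  -- the sum over the pairs
  have hsum : ∑ p ∈ S, f p = ∑ q : G × V₀, f (Φ q) * w q.2 := by
    have h1 : ∀ q ∈ (Finset.univ : Finset (G × V₀)), Φ q ∈ S := fun q _ => by
      rw [hS]
      exact Finset.mem_image_of_mem _ (Finset.mem_univ q)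
    rw [← Finset.sum_fiberwise_of_maps_to h1]
    refine Finset.sum_congr rfl fun p hp => ?_
    rw [hS, Finset.mem_image] at hp
    obtain ⟨q₀, -, rfl⟩ := hp
    have h2 : ∑ q ∈ Finset.univ.filter (fun q => Φ q = Φ q₀), f (Φ q) * w q.2 =
        ∑ q ∈ Finset.univ.filter (fun q => Φ q = Φ q₀), f (Φ q₀) * w q.2 := by
      refine Finset.sum_congr rfl fun q hq => ?_
      rw [(Finset.mem_filter.1 hq).2]
    rw [h2, ← Finset.mul_sum, hfib, mul_one]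
  have hsum2 : ∑ q : G × V₀, f (Φ q) * w q.2 = χ 1 * ∑ c : V₀, cv (fc B ⊥ c) χ / nE E₀ c := by
    rw [Fintype.sum_prod_type, Finset.sum_comm, Finset.mul_sum]
    refine Finset.sum_congr rfl fun c _ => ?_
    have h1 : ∀ z : G, f (Φ (z, c)) * w c =
        gv M (Cu (B.i c)) (B.i c) (B.b (Subgroup.zpowers c)) χ * w c := by
      intro z
      rw [hf, hΦ]
      show gv M (Cu (z * B.i c * z⁻¹)) (z * B.i c * z⁻¹) (cj z (B.b (Subgroup.zpowers c))) χ * w c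
        = _
      rw [gv_conj (hLc c).blk.blk.1.1 hχI z]
    show ∑ z : G, f (Φ (z, c)) * w c = _
    rw [Finset.sum_congr rfl fun z _ => h1 z, Finset.sum_const, nsmul_eq_mul,
      (hlnk ℓ M hM V₀ E₀ G B hB c).2.2 χ hχI, hw, ← hCu c, Finset.card_univ,
      Nat.card_eq_fintype_card (α := G)]
    have h3 : (Nat.card (Cu (B.i c)) : ℂ) ≠ 0 := by exact_mod_cast Nat.card_pos.ne'
    have h4 : (nE E₀ c : ℂ) ≠ 0 := by
      rw [hnE c]
      have h3 : 0 < (Ob E₀ c).ncard := by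
        rw [Set.ncard_pos (Set.toFinite _)]
        exact ⟨c, ob_self E₀ c⟩
      exact_mod_cast h3.ne'
    field_simp
  -- the left side
  have hleft : ∑ᶠ (u : G) (_ : El ℓ u), χ u = ∑ p ∈ S, f p := by
    rw [← Finset.sum_fiberwise S (fun p => p.1) f, finsum_eq_sum_of_fintype]
    refine Finset.sum_congr rfl fun u _ => ?_
    rw [finsum_eq_if]
    split_ifs with hu
    · have heC : IsIdem (fun t : Cu u => B.e t) := H98.idem_cu hF hL.blk.1 hu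
      obtain ⟨h1, h2⟩ := blk_sum (M := M) _ heC
      rw [val_eq smg hM hL.blk.1 hχ hu, h2, gbv_sum _ _ _ h1, ← finsum_mem_coe_finset]
      refine finsum_mem_eq_of_bijOn (fun b : Cu u → FF M => (u, H75.ext0 (Cu u) b)) ⟨?_, ?_, ?_⟩ ?_
      · rintro b ⟨hb, hb2⟩
        have h3 : (fun t : Cu u => H75.ext0 (Cu u) b t) = b := funext (H75.ext0_apply (Cu u) b)
        rw [Finset.coe_filter]
        refine ⟨?_, rfl⟩
        rw [← Finset.mem_coe, hSO]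
        refine ⟨hu, ⟨H75.ext0_supp (Cu u) b, ?_⟩, ?_⟩
        · show IsBlk (fun t : Cu u => H75.ext0 (Cu u) b t)
          rw [h3]
          exact hb
        · show mulF (fun t : Cu u => B.e t) (fun t : Cu u => H75.ext0 (Cu u) b t) =
            fun t : Cu u => H75.ext0 (Cu u) b t
          rw [h3]
          exact hb2
      · rintro b - b' - h
        have h3 := (Prod.mk_inj.1 h).2
        funext t
        rw [← H75.ext0_apply (Cu u) b t, ← H75.ext0_apply (Cu u) b' t, h3]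
      · rintro ⟨y, b⟩ hp
        rw [Finset.coe_filter] at hp
        obtain ⟨hp1, hp2⟩ := hp
        rw [← Finset.mem_coe, hSO] at hp1
        have hy : y = u := hp2
        subst hy
        obtain ⟨h3, h4, h5⟩ := hp1
        refine ⟨fun t : Cu y => b t, ⟨h4.blk, h5⟩, ?_⟩
        refine Prod.ext rfl ?_
        exact H75.ext0_res (Cu y) h4.supp
      · rintro b ⟨hb, hb2⟩
        rw [hf]
        have h3 : (fun t : Cu u => H75.ext0 (Cu u) b t) = b := funext (H75.ext0_apply (Cu u) b)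
        show gbv (Cu u) u (eh M b) χ = gbv (Cu u) u (eh M fun t : Cu u => H75.ext0 (Cu u) b t) χ
        rw [h3]
    · symm
      apply Finset.sum_eq_zero
      intro p hp
      exfalso
      apply hu
      obtain ⟨h1, h2⟩ := Finset.mem_filter.1 hp
      rw [← Finset.mem_coe, hSO] at h1
      rw [← h2]
      exact h1.1
  rw [hleft, hsum, hsum2, finsum_eq_sum_of_fintype]

end Pool.Agent.PP.SO.H13
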