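import Pool.Agent.ASO.StmtsL

/-!
# ASO row KM2: division by `ℓ`, residues
-/

open scoped BigOperators

noncomputable section

namespace Pool.Agent.PP.SO.H13

open Pool.Agent.PP.SO

/-- KM2 -/
theorem km2 (Rsl : RslStmt) (Km1 : Km1Stmt) : Km2Stmt := by
  classical
  intro ℓ _ h5 V₀ _ _ E₀ hFr D N k K
  obtain ⟨⟨k', hk⟩, hD⟩ := Km1 ℓ h5 V₀ E₀ hFr D N k K
  obtain ⟨hR1, -, -⟩ := Rsl ℓ
  have hℓ0 : (ℓ : ℚ) ≠ 0 := by
    have := (Fact.out : ℓ.Prime).pos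
    positivity
  let r : SOR.Rl ℓ →+* ZMod ℓ :=
    { toFun := fun x => ((x : ℚ) : ZMod ℓ)
      map_one' := by simp
      map_zero' := by simp
      map_add' := fun x y => (hR1 x x.2 y y.2).1
      map_mul' := fun x y => (hR1 x x.2 y y.2).2 }
  have hrℓ : r (ℓ : SOR.Rl ℓ) = 0 := by
    rw [map_natCast]
    exact ZMod.natCast_self ℓ
  have hD' : ∀ c, ∃ q : SOR.Rl ℓ, (c = 1 → q = 0) ∧ (c ≠ 1 → D c = ℓ * (q : ℚ)) := by
    intro c
    by_cases hc : c = 1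
    · exact ⟨0, fun _ => rfl, fun h => absurd hc h⟩
    · obtain ⟨q, hq, h⟩ := hD c hc
      exact ⟨⟨q, hq⟩, fun h => absurd h hc, fun _ => h⟩
  have hN' : ∀ c d, ∃ q : SOR.Rl ℓ, c ≠ 1 → d ≠ 1 → N c d = ℓ * (q : ℚ) := by
    intro c d
    by_cases hc : c ≠ 1 ∧ d ≠ 1
    · obtain ⟨q, hq, h⟩ := K.n1 c d hc.1 hc.2
      exact ⟨⟨q, hq⟩, fun _ _ => h⟩
    · exact ⟨0, fun h1 h2 => absurd ⟨h1, h2⟩ hc⟩
  choose D' hD0 hD1 using hD'
  choose N' hN1 using hN'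
  have hpow : ∀ (c : V₀) (j : ℕ), c ≠ 1 → ¬ ℓ ∣ j → c ^ j ≠ 1 := by
    intro c j hc hj h
    have h1 : orderOf c = ℓ := orderOf_eq_prime (hFr.ex c) hc
    exact hj (h1 ▸ orderOf_dvd_of_pow_eq_one h)
  have huniq : ∀ a b : V₀, a ≠ 1 → b ≠ 1 → D a = D b → D' a = D' b := by
    intro a b ha hb h
    rw [hD1 a ha, hD1 b hb] at h
    exact Subtype.ext (mul_left_cancel₀ hℓ0 h)
  refine ⟨fun c => r (D' c), fun c d => r (N' c d), k', hk, ?_, ?_, ?_, ?_, ?_, ?_⟩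
  · simp only
    rw [hD0 1 rfl, map_zero]
  · intro c j hj
    simp only
    by_cases hc : c = 1
    · rw [hc, one_pow]
    · rw [huniq (c ^ j) c (hpow c j hc hj) hc (K.dp c j hj)]
  · intro σ hσ c
    simp only
    by_cases hc : c = 1
    · rw [hc, map_one]
    · rw [huniq (σ c) c (by simpa using hc) hc (K.de σ hσ c)]
  · obtain ⟨q, hq, h⟩ := K.hh
    let _ : Fintype V₀ := Fintype.ofFinite V₀
    have hsum : ∑ᶠ c ∈ {c : V₀ | c ≠ 1}, D c = ℓ * ∑ c, (D' c : ℚ) := by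
      rw [Finset.mul_sum, ← finsum_eq_sum_of_fintype]
      refine finsum_congr fun c => ?_
      by_cases hc : c = 1
      · simp [hc, hD0 1 rfl]
      · rw [finsum_eq_if, if_pos (show c ∈ {c : V₀ | c ≠ 1} from hc), hD1 c hc]
    rw [hsum, hk] at h
    have h2 : (Nat.card E₀ : SOR.Rl ℓ) * (k' : SOR.Rl ℓ) + ∑ c, D' c = ℓ * ⟨q, hq⟩ := by
      apply Subtype.ext
      push_cast at h ⊢
      apply mul_left_cancel₀ hℓ0
      linear_combination h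
    have h3 := congrArg r h2
    rw [map_add, map_mul, map_mul, map_sum, hrℓ, zero_mul, map_natCast, map_intCast] at h3
    rw [finsum_eq_sum_of_fintype]
    linear_combination h3
  · intro ρ₁ ρ₂ h1 h2 c d hc hd
    obtain ⟨q, hq, h⟩ := K.n2 hD ρ₁ ρ₂ h1 h2 c d hc hd
    let _ : Fintype E₀ := Fintype.ofFinite E₀
    have hsum : ∑ᶠ σ ∈ {σ : MulAut V₀ | σ ∈ E₀ ∧ c * σ d ≠ 1},
        ((ρ₁ (c * σ d)).val : ℚ) * (ρ₂ (σ⁻¹ (c * σ d))).val * D (c * σ d) =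
        ℓ * ∑ σ : E₀, ((ρ₁ (c * σ.1 d)).val : ℚ) * (ρ₂ (σ.1⁻¹ (c * σ.1 d))).val *
          (D' (c * σ.1 d) : ℚ) := by
      rw [Finset.mul_sum, ← finsum_eq_sum_of_fintype,
        finsum_subtype_eq_finsum_cond (fun σ => σ ∈ E₀) (f := fun σ : MulAut V₀ => (ℓ : ℚ) *
          (((ρ₁ (c * σ d)).val : ℚ) * ((ρ₂ (σ⁻¹ (c * σ d))).val : ℚ) * (D' (c * σ d) : ℚ)))]
      refine finsum_congr fun σ => ?_
      rw [finsum_eq_if, finsum_eq_if]
      by_cases hσ : σ ∈ E₀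
      · by_cases hcd : c * σ d = 1
        · rw [if_neg (fun h => h.2 hcd), if_pos hσ, hcd, hD0 1 rfl]
          simp
        · rw [if_pos (show σ ∈ {σ : MulAut V₀ | σ ∈ E₀ ∧ c * σ d ≠ 1} from ⟨hσ, hcd⟩),
            if_pos hσ, hD1 _ hcd]
          ring
      · rw [if_neg (fun h => hσ h.1), if_neg hσ]
    rw [hsum, hN1 c d hc hd] at h
    have h2 : N' c d * (((ρ₁ c).val : SOR.Rl ℓ) * ((ρ₂ d).val : SOR.Rl ℓ)) -
        ∑ σ : E₀, ((ρ₁ (c * σ.1 d)).val : SOR.Rl ℓ) * ((ρ₂ (σ.1⁻¹ (c * σ.1 d))).val : SOR.Rl ℓ) *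
          D' (c * σ.1 d) = ℓ * ⟨q, hq⟩ := by
      apply Subtype.ext
      push_cast at h ⊢
      apply mul_left_cancel₀ hℓ0
      linear_combination h
    have h3 := congrArg r h2
    simp only [map_sub r, map_mul r, map_sum r, map_natCast r, ZMod.natCast_zmod_val,
      ZMod.natCast_self, zero_mul] at h3
    rw [finsum_eq_sum_of_fintype]
    change r (N' c d) * (ρ₁ c * ρ₂ d) = _
    rw [sub_eq_zero.1 h3]
    refine Finset.sum_congr rfl fun σ _ => ?_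
    have h4 : σ.1⁻¹ (c * σ.1 d) = σ.1⁻¹ c * d := by
      rw [map_mul]
      congr 1
      exact MulAut.inv_apply_self V₀ σ.1 d
    rw [h4]
    ring
  · intro c d hc hd
    obtain ⟨q, hq, h⟩ := K.sf c d hc hd
    have hnd : ∀ t ∈ Finset.Icc 1 (ℓ - 1), ¬ ℓ ∣ t := by
      intro t ht hdvd
      rw [Finset.mem_Icc] at ht
      have := Nat.le_of_dvd (by omega) hdvd
      omega
    have hsum : ∑ t ∈ Finset.Icc 1 (ℓ - 1), ∑ s ∈ Finset.Icc 1 (ℓ - 1), N (c ^ t) (d ^ s) =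
        ℓ * ∑ t ∈ Finset.Icc 1 (ℓ - 1), ∑ s ∈ Finset.Icc 1 (ℓ - 1), (N' (c ^ t) (d ^ s) : ℚ) := by
      rw [Finset.mul_sum]
      refine Finset.sum_congr rfl fun t ht => ?_
      rw [Finset.mul_sum]
      refine Finset.sum_congr rfl fun s hs => ?_
      exact hN1 _ _ (hpow c t hc (hnd t ht)) (hpow d s hd (hnd s hs))
    rw [hsum, hD1 c hc, hD1 d hd, hk] at h
    have h2 : (∑ t ∈ Finset.Icc 1 (ℓ - 1), ∑ s ∈ Finset.Icc 1 (ℓ - 1), N' (c ^ t) (d ^ s)) +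
        (Nat.card E₀ : SOR.Rl ℓ) * ((ℓ : SOR.Rl ℓ) - 1) * (D' c + D' d) +
        (Nat.card E₀ : SOR.Rl ℓ) ^ 2 * (k' : SOR.Rl ℓ) = ℓ * ⟨q, hq⟩ := by
      apply Subtype.ext
      push_cast at h ⊢
      apply mul_left_cancel₀ hℓ0
      linear_combination h
    have h3 := congrArg r h2
    simp only [map_sub, map_add, map_mul, map_sum, map_natCast, map_intCast, map_one, map_pow,
      ZMod.natCast_self, zero_mul] at h3
    linear_combination h3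

end Pool.Agent.PP.SO.H13
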