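import Pool.Agent.ASO.StmtsL

/-!
# ASO row LHF: the functionals `h c` exist
-/

open scoped BigOperators

noncomputable section

namespace Pool.Agent.PP.SO.H13

open Pool.Agent.PP.SO

/-- LHF -/
theorem lhf (LTb : LTbStmt) (LSm : LSmStmt) : LHfStmt := by
  intro ℓ _ V Γ _ _ _ _ _ ρ F f₀ L
  have hex : ∀ c : V, ∃ h : V →ₗ[ZMod ℓ] ZMod ℓ, c ≠ 0 → (h c = F c - f₀ ∧
      ∀ w : V, (∀ a : ZMod ℓ, w ≠ a • c) → h w = ∑ s : ZMod ℓ, s * F (w + s • c)) := by
    intro c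
    by_cases hc : c = 0
    · exact ⟨0, fun h => absurd hc h⟩
    obtain ⟨w₀, hw₀⟩ : ∃ w₀ : V, ∀ a : ZMod ℓ, w₀ ≠ a • c := by
      by_contra hcon
      push Not at hcon
      have h1 : Module.finrank (ZMod ℓ) V ≤ 1 := finrank_le_one c fun w => by
        obtain ⟨a, ha⟩ := hcon w
        exact ⟨a, ha.symm⟩
      rw [L.rk] at h1
      omega
    obtain ⟨hb, -, hf⟩ := LTb ℓ V L.rk c w₀ hc hw₀
    obtain ⟨h, h1, h2⟩ := hf (∑ s : ZMod ℓ, s * F (w₀ + s • c)) (F c - f₀)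
    refine ⟨h, fun _ => ⟨h2, ?_⟩⟩
    intro w hw
    obtain ⟨a, b, hab⟩ := hb w
    have ha : a ≠ 0 := by
      rintro rfl
      exact hw b (by rw [hab]; simp)
    have hS := LSm ℓ V Γ ρ F f₀ L c w₀ hc hw₀
    have key : ∑ s : ZMod ℓ, s * F (w + s • c) = ∑ s : ZMod ℓ, (a * s - b) * F (w₀ + s • c) := by
      rw [← Equiv.sum_comp ((Equiv.mulLeft₀ a ha).trans (Equiv.subRight b))]
      refine Finset.sum_congr rfl fun s _ => ?_
      change (a * s - b) * F (w + (a * s - b) • c) = (a * s - b) * F (w₀ + s • c)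
      have h3 : w + (a * s - b) • c = a • (w₀ + s • c) := by
        rw [hab]
        module
      rw [h3, L.fs a _ ha]
    rw [key]
    have h4 : ∑ s : ZMod ℓ, (a * s - b) * F (w₀ + s • c) =
        a * (∑ s : ZMod ℓ, s * F (w₀ + s • c)) - b * ∑ s : ZMod ℓ, F (w₀ + s • c) := by
      rw [Finset.mul_sum, Finset.mul_sum, ← Finset.sum_sub_distrib]
      refine Finset.sum_congr rfl fun s _ => ?_
      ring
    rw [h4, hS, hab, map_add, map_smul, map_smul, h1, h2]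
    simp only [smul_eq_mul]
    ring
  choose h hh using hex
  exact ⟨h, fun c hc => hh c hc⟩

end Pool.Agent.PP.SO.H13
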