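import Pool.Agent.ASO.StmtsH
import Pool.Agent.Helper3_AT3.DUG
import Pool.Agent.Helper62_AT3.LCJ
import Pool.Agent.Helper62_AT3.CO2
import Pool.Agent.Helper98_AT3.Fxs
import Pool.Agent.Helper97_K9.ORB
import Pool.Agent.Helper69_K9.Fmg
import Pool.Agent.Helper17_PP.Prv

/-!
# Squad ASO, row HFPR, part 1: the pairs `(u, b)`

Author: helper13.
-/

open scoped BigOperators

noncomputable section

namespace Pool.Agent.PP.SO.H13

open Pool.Agent.Helper51_AWC Pool.Agent.Helper79_WRA Pool.Agent.PP Pool.Agent.PP.KF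
open Pool.Agent.PP.K9 Pool.Agent.PP.K9.H97 Pool.Agent.PP.H75 Pool.Agent.PP.T3

attribute [local instance] Ideal.Quotient.field

/-! ## 1. The sum over the blocks -/

section blk

variable {M : Ideal (integralClosure ℤ ℂ)} [M.IsMaximal]

/-- the blocks under an idempotent, and the sum of their lifts -/
theorem blk_sum {H : Type} [Group H] [Finite H] : ∀ f : H → FF M, IsIdem f →
    {b : H → FF M | IsBlk b ∧ mulF f b = b}.Finite ∧
    eh M f = ∑ᶠ b ∈ {b : H → FF M | IsBlk b ∧ mulF f b = b}, eh M b := by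
  refine H46.idem_induction _ ?_ ?_ ?_
  · have : {b : H → FF M | IsBlk b ∧ mulF 0 b = b} = ∅ := by
      ext b
      constructor
      · rintro ⟨hb, h⟩
        apply hb.2.1
        rw [← h, H75.mulF_zero_left]
      · intro h
        exact absurd h (Set.notMem_empty b)
    rw [this]
    exact ⟨Set.finite_empty, by rw [finsum_mem_empty, H98.eh_zero]⟩
  · intro b hb
    have : {b' : H → FF M | IsBlk b' ∧ mulF b b' = b'} = {b} := by
      ext b'
      constructor
      · rintro ⟨hb', h⟩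
        exact (H17.blk_eq hb hb' (by rw [h]; exact hb'.2.1)).symm
      · intro h
        rw [Set.mem_singleton_iff] at h
        rw [h]
        exact ⟨hb, hb.1.2⟩
    rw [this]
    exact ⟨Set.finite_singleton _, by rw [finsum_mem_singleton]⟩
  · intro f₁ f₂ h1 h2 h12 ih1 ih2
    have h21 : mulF f₂ f₁ = 0 := by rw [H75.mulF_comm_cl h2.1 f₁, h12]
    have key : ∀ b : H → FF M, mulF (f₁ + f₂) b = mulF f₁ b + mulF f₂ b := by
      intro b
      apply ma_injective
      rw [ma_mul, ma_add, ma_add, ma_mul, ma_mul, add_mul]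
    have hset : {b : H → FF M | IsBlk b ∧ mulF (f₁ + f₂) b = b} =
        {b : H → FF M | IsBlk b ∧ mulF f₁ b = b} ∪ {b : H → FF M | IsBlk b ∧ mulF f₂ b = b} := by
      ext b
      constructor
      · rintro ⟨hb, h⟩
        rcases hb.2.2 _ h1 with h3 | h3
        · left
          exact ⟨hb, by rw [H46.mulF_comm h1.1, h3]⟩
        · right
          refine ⟨hb, ?_⟩
          have h4 : mulF f₁ b = 0 := by rw [H46.mulF_comm h1.1, h3]
          rw [key, h4, zero_add] at h
          exact h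
      · rintro (⟨hb, h⟩ | ⟨hb, h⟩)
        · refine ⟨hb, ?_⟩
          have h4 : mulF f₂ b = 0 := by
            rw [← h, ← H20.mulF_assoc, h21, H75.mulF_zero_left]
          rw [key, h, h4, add_zero]
        · refine ⟨hb, ?_⟩
          have h4 : mulF f₁ b = 0 := by
            rw [← h, ← H20.mulF_assoc, h12, H75.mulF_zero_left]
          rw [key, h, h4, zero_add]
    have hdis : Disjoint {b : H → FF M | IsBlk b ∧ mulF f₁ b = b}
        {b : H → FF M | IsBlk b ∧ mulF f₂ b = b} := by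
      rw [Set.disjoint_left]
      rintro b ⟨hb, h⟩ ⟨_, h'⟩
      apply hb.2.1
      rw [← h, ← h', ← H20.mulF_assoc, h12, H75.mulF_zero_left]
    rw [hset]
    refine ⟨ih1.1.union ih2.1, ?_⟩
    rw [finsum_mem_union hdis ih1.1 ih2.1, ← ih1.2, ← ih2.2, H98.eh_add h1 h2 h12]

theorem gbv_sum {G : Type} [Group G] [Finite G] (C : Subgroup G) (w : G) (χ : G → ℂ)
    {S : Set (C → FF M)} (hS : S.Finite) :
    gbv C w (∑ᶠ b ∈ S, eh M b) χ = ∑ᶠ b ∈ S, gbv C w (eh M b) χ := by
  classical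
  have := Fintype.ofFinite C
  rw [finsum_mem_eq_finite_toFinset_sum _ hS, finsum_mem_eq_finite_toFinset_sum _ hS, gbv,
    finsum_eq_sum_of_fintype]
  have h1 : ∀ b : C → FF M, gbv C w (eh M b) χ = ∑ c : C, eh M b c * χ (w * c) := fun b => by
    rw [gbv, finsum_eq_sum_of_fintype]
  simp only [h1]
  rw [Finset.sum_comm]
  refine Finset.sum_congr rfl fun c _ => ?_
  rw [Finset.sum_apply, Finset.sum_mul]

theorem gbv_one {G : Type} [Group G] [Finite G] (C : Subgroup G) (w : G) (χ : G → ℂ) :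
    gbv C w (eh M (dl (FF M) (1 : C))) χ = χ w := by
  classical
  have := Fintype.ofFinite C
  rw [gbv, finsum_eq_sum_of_fintype, H98.eh_one, Finset.sum_eq_single (1 : C)]
  · unfold dl
    rw [if_pos rfl, one_mul, Subgroup.coe_one, mul_one]
  · intro t _ ht
    unfold dl
    rw [if_neg ht, zero_mul]
  · intro h
    exact absurd (Finset.mem_univ _) h

/-- the centraliser of `1` -/
def eqOne (G : Type) [Group G] : G ≃* Cu (1 : G) where
  toFun g := ⟨g, by rw [Subgroup.mem_centralizer_singleton_iff, mul_one, one_mul]⟩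
  invFun c := c
  left_inv _ := rfl
  right_inv _ := rfl
  map_mul' _ _ := rfl

/-- the value at an `ℓ`-element -/
theorem val_eq (smg : T3.SmgStmt) {ℓ : ℕ} [Fact ℓ.Prime] (hM : (ℓ : integralClosure ℤ ℂ) ∈ M)
    {G : Type} [Group G] [Finite G] {e : G → FF M} (he : IsIdem e) {χ : G → ℂ}
    (hχ : χ ∈ IrrE M e) {u : G} (hu : El ℓ u) :
    χ u = gbv (Cu u) u (eh M (fun t : Cu u => e t)) χ := by
  classical
  by_cases hu1 : u = 1
  · subst hu1
    have := Fintype.ofFinite G
    have h1 : gbv (Cu (1 : G)) 1 (eh M (fun t : Cu (1 : G) => e t)) χ =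
        ∑ a : G, eh M e a * χ a := by
      rw [gbv, ← finsum_comp_equiv (eqOne G).toEquiv, finsum_eq_sum_of_fintype]
      refine Finset.sum_congr rfl fun a _ => ?_
      have h2 := H62.eh_equiv (M := M) (eqOne G) he.1 a
      have h3 : eh M (fun t : Cu (1 : G) => e t) ((eqOne G).toEquiv a) = eh M e a := h2
      rw [h3, one_mul]
      rfl
    have h4 := (KF.H25.eh_om e hχ.1).1 hχ
    unfold H50.om at h4
    rw [h1]
    rw [div_eq_one_iff_eq (irr_one_ne hχ.1)] at h4
    exact h4.symm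
  · have hF : GoodF ℓ (FF M) := H50.fld ℓ Fact.out M hM
    have heC : IsIdem (fun t : Cu u => e t) := H98.idem_cu hF he hu
    obtain ⟨h1, h2⟩ := H46.isIdem_sub (H46.isIdem_one (F := FF M) (H := Cu u)) heC
      (H46.one_mulF _)
    have h3 := H98.eh_add (M := M) heC h1 h2
    have h4 : (fun t : Cu u => e t) + (dl (FF M) (1 : Cu u) - fun t : Cu u => e t) =
        dl (FF M) (1 : Cu u) := by
      rw [add_sub_cancel]
    rw [h4] at h3
    have h5 := gbv_one (M := M) (Cu u) u χ
    rw [h3] at h5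
    have := Fintype.ofFinite (Cu u)
    have h6 : gbv (Cu u) u (eh M (fun t : Cu u => e t) +
        eh M (dl (FF M) (1 : Cu u) - fun t : Cu u => e t)) χ =
        gbv (Cu u) u (eh M (fun t : Cu u => e t)) χ +
        gbv (Cu u) u (eh M (dl (FF M) (1 : Cu u) - fun t : Cu u => e t)) χ := by
      rw [gbv, gbv, gbv, finsum_eq_sum_of_fintype, finsum_eq_sum_of_fintype,
        finsum_eq_sum_of_fintype, ← Finset.sum_add_distrib]
      refine Finset.sum_congr rfl fun c _ => ?_
      rw [Pi.add_apply, add_mul]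
    have h7 := (smg ℓ M hM G u 1 hu1 hu (one_mem _) (by
      unfold Reg
      rw [orderOf_one]
      exact Nat.coprime_one_left ℓ) (dl (FF M) (1 : Cu u) - fun t : Cu u => e t) h1 e he).2 h2 χ hχ
    rw [mul_one] at h7
    rw [h6, h7, add_zero] at h5
    exact h5.symm

end blk

/-! ## 2. The pairs `(u, b)` -/

section pairs

variable {F G : Type} [Field F] [Group G] [Finite G]

/-- the pairs of an `ℓ`-element and a block of its centraliser under `e` -/
def Om (ℓ : ℕ) (e : G → F) : Set (G × (G → F)) :=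
  {p | El ℓ p.1 ∧ Bx (Cu p.1) p.2 ∧
    mulF (fun t : Cu p.1 => e t) (fun t : Cu p.1 => p.2 t) = fun t : Cu p.1 => p.2 t}

open Classical in
/-- the restriction to a subgroup -/
def rs (X : Subgroup G) (e : G → F) : G → F := fun x => if x ∈ X then e x else 0

omit [Finite G] in
theorem rs_supp (X : Subgroup G) (e : G → F) : ∀ x, x ∉ X → rs X e x = 0 := fun _ hx => if_neg hx

omit [Finite G] in
theorem rs_res (X : Subgroup G) (e : G → F) : (fun t : X => rs X e t) = fun t : X => e t :=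
  funext fun t => if_pos t.2

theorem und_iff {X : Subgroup G} {e b : G → F} (hb : ∀ x, x ∉ X → b x = 0) :
    (mulF (fun t : X => e t) (fun t : X => b t) = fun t : X => b t) ↔ mulF (rs X e) b = b := by
  rw [← rs_res X e, ← mulF_res X b (rs_supp X e)]
  constructor
  · intro h
    exact eq_of_res (mulF_supp X (rs_supp X e) hb) hb h
  · intro h
    rw [h]

omit [Finite G] in
theorem mem_Cu_conj {u g : G} (x : G) : x ∈ Cu (g * u * g⁻¹) ↔ g⁻¹ * x * g ∈ Cu u := by
  rw [Subgroup.mem_centralizer_singleton_iff, Subgroup.mem_centralizer_singleton_iff]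
  constructor
  · intro h
    have h1 : g⁻¹ * (x * (g * u * g⁻¹)) * g = g⁻¹ * (g * u * g⁻¹ * x) * g := by rw [h]
    have e1 : g⁻¹ * (x * (g * u * g⁻¹)) * g = g⁻¹ * x * g * u := by group
    have e2 : g⁻¹ * (g * u * g⁻¹ * x) * g = u * (g⁻¹ * x * g) := by group
    rw [e1, e2] at h1
    exact h1
  · intro h
    have h1 : g * (g⁻¹ * x * g * u) * g⁻¹ = g * (u * (g⁻¹ * x * g)) * g⁻¹ := by rw [h]
    have e1 : g * (g⁻¹ * x * g * u) * g⁻¹ = x * (g * u * g⁻¹) := by group
    have e2 : g * (u * (g⁻¹ * x * g)) * g⁻¹ = g * u * g⁻¹ * x := by group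
    rw [e1, e2] at h1
    exact h1

theorem und_conj {e : G → F} (he : IsCl e) {u g : G} {b : G → F} (hb : Bx (Cu u) b)
    (h : mulF (fun t : Cu u => e t) (fun t : Cu u => b t) = fun t : Cu u => b t) :
    Bx (Cu (g * u * g⁻¹)) (cj g b) ∧
    mulF (fun t : Cu (g * u * g⁻¹) => e t) (fun t : Cu (g * u * g⁻¹) => cj g b t) =
      fun t : Cu (g * u * g⁻¹) => cj g b t := by
  have h1 : Bx (Cu (g * u * g⁻¹)) (cj g b) := H62.bx_cj mem_Cu_conj hb
  refine ⟨h1, ?_⟩
  rw [und_iff h1.supp]
  rw [und_iff hb.supp] at h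
  have h2 : rs (Cu (g * u * g⁻¹)) e = cj g (rs (Cu u) e) := by
    classical
    funext x
    show (if x ∈ Cu (g * u * g⁻¹) then e x else 0) =
      if g⁻¹ * x * g ∈ Cu u then e (g⁻¹ * x * g) else 0
    by_cases hx : x ∈ Cu (g * u * g⁻¹)
    · rw [if_pos hx, if_pos ((mem_Cu_conj x).1 hx)]
      have := he x g⁻¹
      rw [inv_inv] at this
      exact this.symm
    · rw [if_neg hx, if_neg fun h' => hx ((mem_Cu_conj x).2 h')]
  rw [h2, ← cj_mulF, h]

omit [Finite G] in
theorem el_conj {ℓ : ℕ} {u : G} (h : El ℓ u) (g : G) : El ℓ (g * u * g⁻¹) := by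
  obtain ⟨n, hn⟩ := h
  refine ⟨n, ?_⟩
  rw [conj_pow, hn, mul_one, mul_inv_cancel]

theorem om_conj {ℓ : ℕ} {e : G → F} (he : IsCl e) {u : G} {b : G → F} (h : (u, b) ∈ Om ℓ e)
    (g : G) : (g * u * g⁻¹, cj g b) ∈ Om ℓ e :=
  ⟨el_conj h.1 g, und_conj he h.2.1 h.2.2⟩

omit [Finite G] in
theorem br_cj' (g : G) (V : Subgroup G) (b : G → F) :
    br (conjS g V) (cj g b) = cj g (br V b) := by
  classical
  funext x
  change _ = br V b (g⁻¹ * x * g)
  unfold br
  by_cases h : x ∈ Subgroup.centralizer (conjS g V : Set G)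
  · rw [if_pos h, if_pos ((H62.mem_cent_conjS x).1 h)]
    rfl
  · rw [if_neg h, if_neg (fun h' => h ((H62.mem_cent_conjS x).2 h'))]

theorem lc_conj {e : G → F} (he : IsCl e) {V : Subgroup G} {γ : G → F} {u : G} {b : G → F}
    (h : Lc e V γ u b) (g : G) : Lc e (conjS g V) (cj g γ) (g * u * g⁻¹) (cj g b) := by
  obtain ⟨h1, h2⟩ := und_conj he (g := g) h.blk h.und
  refine ⟨h1, h2, ?_⟩
  rw [br_cj', ← cj_mulF, h.gam]

end pairs

end Pool.Agent.PP.SO.H13
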