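import Pool.Agent.Helper13_ASO.PrA

/-!
# Squad ASO, row HFPR, part 2: every pair is conjugate to a standard one

Author: helper13.
-/

open scoped BigOperators

noncomputable section

namespace Pool.Agent.PP.SO.H13

open Pool.Agent.Helper51_AWC Pool.Agent.Helper79_WRA Pool.Agent.PP Pool.Agent.PP.KF
open Pool.Agent.PP.K9 Pool.Agent.PP.K9.H97 Pool.Agent.PP.H75 Pool.Agent.PP.T3

attribute [local instance] Ideal.Quotient.field

section norm

variable {G : Type} [Group G]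

theorem norm_cent (V : Subgroup G) : Subgroup.normalizer (V : Set G) ≤
    Subgroup.normalizer ((Subgroup.centralizer (V : Set G) : Subgroup G) : Set G) := by
  intro n hn
  have key : ∀ m : G, m ∈ Subgroup.normalizer (V : Set G) → ∀ c,
      c ∈ Subgroup.centralizer (V : Set G) → m * c * m⁻¹ ∈ Subgroup.centralizer (V : Set G) := by
    intro m hm c hc
    rw [Subgroup.mem_centralizer_iff]
    intro v hv
    have h1 : m⁻¹ * v * m ∈ V := by
      have := (Subgroup.mem_normalizer_iff.1 (Subgroup.inv_mem _ hm) v).1 hv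
      rwa [inv_inv] at this
    have h2 := Subgroup.mem_centralizer_iff.1 hc _ h1
    have h3 : m * (m⁻¹ * v * m * c) * m⁻¹ = m * (c * (m⁻¹ * v * m)) * m⁻¹ := by rw [h2]
    have h4 : m * (m⁻¹ * v * m * c) * m⁻¹ = v * (m * c * m⁻¹) := by group
    have h5 : m * (c * (m⁻¹ * v * m)) * m⁻¹ = m * c * m⁻¹ * v := by group
    rw [h4, h5] at h3
    exact h3
  rw [Subgroup.mem_normalizer_iff]
  intro c
  refine ⟨key n hn c, fun hc => ?_⟩
  have h1 := key n⁻¹ (Subgroup.inv_mem _ hn) _ hc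
  have h2 : n⁻¹ * (n * c * n⁻¹) * n⁻¹⁻¹ = c := by group
  rwa [h2] at h1

theorem conjS_conjS (g h : G) (V : Subgroup G) : conjS g (conjS h V) = conjS (g * h) V := by
  ext x
  rw [H62.mem_conjS, H62.mem_conjS, H62.mem_conjS]
  have : h⁻¹ * (g⁻¹ * x * g) * h = (g * h)⁻¹ * x * (g * h) := by group
  rw [this]

end norm

/-- Every pair under `e` is conjugate to a pair of an element of `V` and a block under `γ`. -/
theorem pair_conj (dug : T3.DugStmt) {ℓ : ℕ} [hfact : Fact ℓ.Prime]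
    {M : Ideal (integralClosure ℤ ℂ)} [M.IsMaximal] (hM : (ℓ : integralClosure ℤ ℂ) ∈ M)
    {G : Type} [Group G] [Finite G] {e : G → FF M} {V : Subgroup G} {γ : G → FF M}
    (hL : Ld ℓ e V γ) {y : G} (hyl : El ℓ y) {b : G → FF M} (hb : Bx (Cu y) b)
    (heb : mulF (fun t : Cu y => e t) (fun t : Cu y => b t) = (fun t : Cu y => b t)) :
    ∃ z : G, z⁻¹ * y * z ∈ V ∧ Lc e V γ (z⁻¹ * y * z) (cj z⁻¹ b) := by
  have hF : GoodF ℓ (FF M) := H50.fld ℓ hfact.out M hM
  have hC : Subgroup.centralizer ((Subgroup.zpowers y : Subgroup G) : Set G) = Cu y := by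
    ext x
    rw [Subgroup.mem_centralizer_iff, Subgroup.mem_centralizer_singleton_iff]
    constructor
    · intro h
      exact (h y (Subgroup.mem_zpowers y)).symm
    · intro h z hz
      obtain ⟨k, rfl⟩ := Subgroup.mem_zpowers_iff.1 hz
      exact ((show Commute x y from h).zpow_right k).eq.symm
  have hQ : IsPGroup ℓ (Subgroup.zpowers y) := by
    obtain ⟨n, hn⟩ := hyl
    rintro ⟨z, hz⟩
    obtain ⟨k, rfl⟩ := Subgroup.mem_zpowers_iff.1 hz
    refine ⟨n, Subtype.ext ?_⟩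
    show (y ^ k) ^ ℓ ^ n = 1
    rw [← zpow_natCast, ← zpow_mul, mul_comm, zpow_mul, zpow_natCast, hn, one_zpow]
  obtain ⟨P, hQP, hPC, hP, hPV, hgP⟩ := dug ℓ M hM G e hL.blk V hL.tp hL.ab (Subgroup.zpowers y) hQ
    b (by rw [hC]; exact hb) (by rw [hC]; exact heb)
  have hyP : y ∈ P := hQP (Subgroup.mem_zpowers y)
  rw [hC] at hPC
  have hbQ : Bx (Subgroup.centralizer ((Subgroup.zpowers y : Subgroup G) : Set G)) b := by
    rw [hC]
    exact hb
  have hunQ : mulF (br (Subgroup.zpowers y) e) b = b :=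
    T3.H3.under_iff hbQ (by rw [hC]; exact heb)
  -- `P` is good for `e`
  have hCC : Subgroup.centralizer (P : Set G) ≤ Cu y := by
    rw [← hC]
    exact Subgroup.centralizer_le (show ((Subgroup.zpowers y : Subgroup G) : Set G) ⊆ P from hQP)
  have hinvP : H66.Inv P b := fun p hp t => C2.H3.ix_inv hb.ix (hPC hp) t
  have hIb : Ix (Subgroup.centralizer (P : Set G)) (br P b) :=
    C2.H3.ix_br hF hP (fun z hz x => C2.H3.ix_inv hb.ix (hCC hz) x) hinvP hb.mul
  have hIQ : Ix (Subgroup.centralizer ((Subgroup.zpowers y : Subgroup G) : Set G))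
      (br (Subgroup.zpowers y) e) :=
    C2.H3.ix_br hF hQ (fun z _ x => hL.blk.1.1 x z) (H66.IsCl.inv hL.blk.1.1 _) hL.blk.1.2
  have hinvQ : H66.Inv P (br (Subgroup.zpowers y) e) := fun p hp t =>
    C2.H3.ix_inv hIQ (by rw [hC]; exact hPC hp) t
  have hPe : mulF (br P e) (br P b) = br P b := by
    have h1 := congrArg (br P) hunQ
    rwa [H66.br_mulF hF hP hinvQ hinvP, C2.H3.br_br hQP] at h1
  have hbrb : br P b ≠ 0 := C2.H3.br_ne_of_gd hgP
  have hGe : Gd e P := by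
    apply C2.H3.gd_of_br'
    intro h0
    apply hbrb
    rw [← hPe, h0, H75.mulF_zero_left]
  -- the conjugate
  obtain ⟨hfm, ⟨hNb, _⟩, _⟩ := K9.H69.fmg ℓ M hM G e hL.blk V hL.tp
  obtain ⟨k, hk⟩ := hfm P hP hGe
  have hPk : P = conjS k V := by
    refine Subgroup.eq_of_le_of_card_ge hk ?_
    rw [H62.card_conjS', hPV]
  obtain ⟨hL1, -⟩ := H62.lcj ℓ (FF M) hF G e V γ hL k
  rw [← hPk] at hL1
  -- the block of `C(P)`
  obtain ⟨γ₀, hγ₀, hgγ, -⟩ := K9.H24.exists_blk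
    (L := fun a : Subgroup.centralizer (P : Set G) → FF M => a) rfl
    (fun a b => rfl) hIb.idem (by
      intro h
      apply hbrb
      exact H75.eq_of_res hIb.supp (fun _ _ => rfl) h)
  obtain ⟨γ₁, hγ₁⟩ : ∃ γ₁ : G → FF M,
      γ₁ = H75.ext0 (Subgroup.centralizer (P : Set G)) γ₀ := ⟨_, rfl⟩
  have hγs : ∀ x, x ∉ Subgroup.centralizer (P : Set G) → γ₁ x = 0 := by
    rw [hγ₁]
    exact H75.ext0_supp _ γ₀
  have hγC : (fun t : Subgroup.centralizer (P : Set G) => γ₁ t) = γ₀ := by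
    rw [hγ₁]
    exact funext (H75.ext0_apply _ γ₀)
  have hBγ : Bx (Subgroup.centralizer (P : Set G)) γ₁ := ⟨hγs, by rw [hγC]; exact hγ₀⟩
  have hbγ : mulF (br P b) γ₁ = γ₁ := by
    apply H75.eq_of_res (H75.mulF_supp _ hIb.supp hγs) hγs
    rw [H75.mulF_res _ γ₁ hIb.supp, hγC, hgγ]
  have heγ : mulF (br P e) γ₁ = γ₁ := by
    rw [← hbγ, ← H20.mulF_assoc, hPe]
  have hLc : Lc e P γ₁ y b := ⟨hb, heb, hbγ⟩
  -- the blocks of `C(P)` under `e` are conjugate in `N(P)`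
  obtain ⟨-, ⟨hNb1, _⟩, _⟩ := K9.H69.fmg ℓ M hM G e hL.blk P hL1.tp
  have hXN : Subgroup.centralizer (P : Set G) ≤ Subgroup.normalizer (P : Set G) :=
    Subgroup.centralizer_le_normalizer _
  obtain ⟨n, hn, hγn⟩ := orb_main hXN (norm_cent P) (f := br P e)
    ⟨fun x hx => H66.br_of_not_mem fun h2 => hx (hXN h2), hNb1⟩ hL1.gam hBγ hL1.und heγ
  have hconj : conjS n P = P := mem_normalizer_iff_conjS.1 hn
  obtain ⟨z, hz⟩ : ∃ z, z = n * k := ⟨_, rfl⟩
  have hPz : P = conjS z V := by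
    rw [hz, ← conjS_conjS, ← hPk, hconj]
  have hγz : γ₁ = cj z γ := by
    rw [hγn, hz, ← cj_cj]
  have h1 := lc_conj hL.blk.1.1 hLc z⁻¹
  rw [inv_inv] at h1
  have h2 : conjS z⁻¹ P = V := by
    rw [hPz, conjS_conjS, inv_mul_cancel]
    ext x
    rw [H62.mem_conjS, inv_one, one_mul, mul_one]
  rw [h2, hγz, cj_inv_cj] at h1
  refine ⟨z, ?_, h1⟩
  rw [hPz, H62.mem_conjS] at hyP
  exact hyP

end Pool.Agent.PP.SO.H13
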